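import Pool.Agent.Y201.LI.Stm2
import Pool.Agent.Y246.C3.Cb

set_option autoImplicit false

namespace Pool.Agent.X44.NC.Inv

open MvPolynomial Pool.Agent.Y201.LI Pool.Agent.Y201.C3 Pool.Agent.TH314.PD

theorem hom_prod {σ ι : Type} (t : Finset ι) (Q : ι → MvPolynomial σ ℂ) (D : ι → ℕ)
    (h : ∀ i, (Q i).IsHomogeneous (D i)) : (∏ i ∈ t, Q i).IsHomogeneous (∑ i ∈ t, D i) :=
  MvPolynomial.IsHomogeneous.prod t Q D fun i _ => h i

/-- common denominators -/
theorem common {M : Type} [Field M] [Algebra ℂ M] {r n : ℕ} (q : Fin n → M) (z : Fin r → M)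
    (hz : ∀ i, z i ∈ ratioField q) :
    ∃ (D : ℕ) (P : Fin r → MvPolynomial (Fin n) ℂ) (c : M),
      (∀ i, (P i).IsHomogeneous D) ∧ c ≠ 0 ∧ ∀ i, aeval q (P i) = c * z i := by
  classical
  choose D P Q h1 h2 h3 h4 using fun i => Pool.Agent.Y246.C3.exists_form q (z i) (hz i)
  refine ⟨∑ i, D i, fun i => P i * ∏ j ∈ Finset.univ.erase i, Q j, ∏ j, aeval q (Q j), ?_, ?_, ?_⟩
  · intro i
    have e : ∑ j, D j = D i + ∑ j ∈ Finset.univ.erase i, D j :=
      (Finset.add_sum_erase _ _ (Finset.mem_univ i)).symm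
    rw [e]
    exact (h1 i).mul (hom_prod _ Q D h2)
  · exact Finset.prod_ne_zero_iff.2 fun i _ => h3 i
  · intro i
    rw [map_mul, map_prod, h4 i, ← Finset.mul_prod_erase _ _ (Finset.mem_univ i)]
    ring

theorem t : S_INV := by
  intro F hF hF0 M _ _ s hs G hG hGF hdiv hmem
  obtain ⟨y, hy⟩ : ∃ y : Fin 6 → M, y = fun l => aeval s (G l) := ⟨_, rfl⟩
  have hs0 : s 0 ≠ 0 := by
    intro h
    have := hs 1 (X 0) (isHomogeneous_X _ _) (by rw [aeval_X, h])
    exact X_ne_zero _ this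
  obtain ⟨m, H, c, h1, h2, h3⟩ := common y (fun i => s i / s 0) (fun i => by rw [hy]; exact hmem i 0)
  obtain ⟨a, ha⟩ : ∃ a : M, a = c / s 0 := ⟨_, rfl⟩
  have ha0 : a ≠ 0 := by rw [ha]; exact div_ne_zero h2 hs0
  have h4 : (fun i => aeval y (H i)) = fun i => a * s i := by
    funext i
    rw [h3 i, ha]
    field_simp
  have h5 : ∀ i, aeval y (aeval H (G i)) = a ^ 3 * y i := by
    intro i
    have e : aeval y (aeval H (G i)) = aeval (fun j => aeval y (H j)) (G i) := by
      rw [← AlgHom.comp_apply, comp_aeval]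
    rw [e, h4, aeval_smul_form (hG i)]
    rw [hy]
  have h6 : ∀ i, (aeval H (G i)).IsHomogeneous (m * 3) := by
    intro i
    have := (hG i).aeval H h1
    rwa [mul_comm] at this ⊢
  refine ⟨m, H, h1, ?_, ?_⟩
  · intro i j
    apply hdiv (m * 3 + 1)
    · exact ((h6 i).mul (isHomogeneous_X _ _)).sub ((h6 j).mul (isHomogeneous_X _ _))
    · rw [← hy, map_sub, map_mul, map_mul, aeval_X, aeval_X, h5, h5]
      ring
  · by_contra hcon
    push Not at hcon
    have h7 : ∀ i, y i = 0 := by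
      intro i
      obtain ⟨R, hR⟩ := hcon i
      have hFy : aeval y F = 0 := by
        rw [hy]
        have e : aeval (fun l => aeval s (G l)) F = aeval s (aeval G F) := by
          rw [← AlgHom.comp_apply, comp_aeval]
        rw [e, hGF, map_zero]
      have := congrArg (aeval y) hR
      rw [h5, map_mul, hFy, zero_mul] at this
      exact (mul_eq_zero.1 this).resolve_left (pow_ne_zero _ ha0)
    have h8 : F ∣ X 0 := by
      apply hdiv 1 _ (isHomogeneous_X _ _)
      rw [aeval_X, ← congrFun hy 0]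
      exact h7 0
    obtain ⟨R, hR⟩ := h8
    have hR0 : R ≠ 0 := by
      rintro rfl
      rw [mul_zero] at hR
      exact X_ne_zero _ hR
    have h9 := congrArg totalDegree hR
    rw [totalDegree_mul_of_isDomain hF0 hR0, totalDegree_X, hF.totalDegree hF0] at h9
    omega

end Pool.Agent.X44.NC.Inv
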