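import Pool.Agent.Y201.LI.Stm2

set_option autoImplicit false

namespace Pool.Agent.X44.NC.Net

open MvPolynomial Pool.Agent.Y201.LI Pool.Agent.Y201.C3

theorem Bf_eval (T : Fin 6 → Fin 6 → Fin 6 → ℂ) (x y z : Fin 6 → ℂ) :
    Bf T x y z = ∑ i, ∑ j, ∑ k, T i j k * x i * y j * z k := rfl

/-- the linear form `B(X, v, w)` -/
noncomputable def lf (T : Fin 6 → Fin 6 → Fin 6 → ℂ) (v w : Fin 6 → ℂ) : MvPolynomial (Fin 6) ℂ :=
  ∑ i, C (∑ j, ∑ k, T i j k * v j * w k) * X i

theorem eval_lf (T : Fin 6 → Fin 6 → Fin 6 → ℂ) (v w x : Fin 6 → ℂ) :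
    eval x (lf T v w) = Bf T x v w := by
  unfold lf
  rw [Bf_eval, map_sum]
  apply Finset.sum_congr rfl
  intro i _
  rw [map_mul, eval_C, eval_X, Finset.sum_mul]
  apply Finset.sum_congr rfl
  intro j _
  rw [Finset.sum_mul]
  apply Finset.sum_congr rfl
  intro k _
  ring

theorem pd_lf (T : Fin 6 → Fin 6 → Fin 6 → ℂ) (v w : Fin 6 → ℂ) (l : Fin 6) :
    pderiv l (lf T v w) = C (∑ j, ∑ k, T l j k * v j * w k) := by
  unfold lf
  rw [map_sum]
  rw [Finset.sum_eq_single l]
  · rw [pderiv_C_mul, pderiv_X_self, mul_one]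
  · intro b _ hb
    rw [pderiv_C_mul, pderiv_X_of_ne hb, mul_zero]
  · intro h; exact absurd (Finset.mem_univ _) h

theorem rearr (f : Fin 6 → Fin 6 → ℂ) (e : Fin 3 → ℂ) (v : Fin 3 → Fin 6 → ℂ) :
    ∑ a, ∑ b, f a b * (∑ i, e i • v i) a * (∑ i, e i • v i) b =
      ∑ i, ∑ j, e i * (∑ a, ∑ b, f a b * v i a * v j b) * e j := by
  simp only [Fin.sum_univ_three, Pi.add_apply, Pi.smul_apply, smul_eq_mul]
  simp only [Finset.mul_sum, Finset.sum_mul, ← Finset.sum_add_distrib]
  apply Finset.sum_congr rfl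
  intro a _
  apply Finset.sum_congr rfl
  intro b _
  ring

theorem net : S_NET := by
  intro T hS hT v hv hz
  by_contra hcon
  push Not at hcon
  obtain ⟨Q, hQ⟩ : ∃ Q : Matrix (Fin 3) (Fin 3) (MvPolynomial (Fin 6) ℂ),
    Q = Matrix.of fun i j => lf T (v i) (v j) := ⟨_, rfl⟩
  have hdet : Q.det = 0 := by
    apply MvPolynomial.funext
    intro x
    rw [map_zero, ← hcon x, RingHom.map_det]
    congr 1
    ext i j
    simp only [hQ, RingHom.mapMatrix_apply, Matrix.map_apply, Matrix.of_apply]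
    exact eval_lf T _ _ _
  obtain ⟨w, hw0, hw⟩ := Matrix.exists_mulVec_eq_zero_iff.2 hdet
  have hsym : ∀ i j, Q i j = Q j i := by
    intro i j
    rw [hQ]
    simp only [Matrix.of_apply]
    unfold lf
    apply Finset.sum_congr rfl
    intro a _
    congr 2
    rw [Finset.sum_comm]
    apply Finset.sum_congr rfl
    intro b _
    apply Finset.sum_congr rfl
    intro c _
    rw [(hS a c b).2]
    ring
  have hw' : ∀ i, ∑ j, Q i j * w j = 0 := fun i => congrFun hw i
  -- differentiate
  have key : ∀ l : Fin 6, ∑ i, ∑ j, w i * C (∑ a, ∑ b, T l a b * v i a * v j b) * w j = 0 := by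
    intro l
    have h1 : ∀ i, ∑ j, (pderiv l (Q i j) * w j + Q i j * pderiv l (w j)) = 0 := by
      intro i
      have := congrArg (pderiv l) (hw' i)
      rw [map_sum, map_zero] at this
      rw [← this]
      apply Finset.sum_congr rfl
      intro j _
      rw [Derivation.leibniz]
      simp only [smul_eq_mul]
      ring
    have h2 : ∑ i, w i * ∑ j, (pderiv l (Q i j) * w j + Q i j * pderiv l (w j)) = 0 := by
      simp only [h1, mul_zero, Finset.sum_const_zero]
    have h3 : ∑ i, w i * ∑ j, Q i j * pderiv l (w j) = 0 := by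
      have : ∑ i, w i * ∑ j, Q i j * pderiv l (w j) = ∑ j, pderiv l (w j) * ∑ i, Q j i * w i := by
        simp only [Finset.mul_sum]
        rw [Finset.sum_comm]
        apply Finset.sum_congr rfl
        intro j _
        apply Finset.sum_congr rfl
        intro i _
        rw [hsym i j]
        ring
      rw [this]
      simp only [hw', mul_zero, Finset.sum_const_zero]
    have h4 : ∑ i, w i * ∑ j, pderiv l (Q i j) * w j = 0 := by
      have : ∑ i, w i * ∑ j, (pderiv l (Q i j) * w j + Q i j * pderiv l (w j)) =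
        ∑ i, w i * ∑ j, pderiv l (Q i j) * w j + ∑ i, w i * ∑ j, Q i j * pderiv l (w j) := by
        rw [← Finset.sum_add_distrib]
        apply Finset.sum_congr rfl
        intro i _
        rw [← mul_add, ← Finset.sum_add_distrib]
      rw [this, h3, add_zero] at h2
      exact h2
    rw [← h4]
    apply Finset.sum_congr rfl
    intro i _
    rw [Finset.mul_sum]
    apply Finset.sum_congr rfl
    intro j _
    rw [hQ]
    simp only [Matrix.of_apply]
    rw [pd_lf]
    ring
  obtain ⟨j0, hj0⟩ : ∃ j, w j ≠ 0 := by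
    by_contra h
    push Not at h
    exact hw0 (funext h)
  obtain ⟨x, hx⟩ : ∃ x : Fin 6 → ℂ, eval x (w j0) ≠ 0 := by
    by_contra h
    push Not at h
    exact hj0 (MvPolynomial.funext fun x => by rw [h x, map_zero])
  obtain ⟨p, hp⟩ : ∃ p : Fin 6 → ℂ, p = ∑ i, eval x (w i) • v i := ⟨_, rfl⟩
  have hp0 : p = 0 := by
    apply hT
    intro l
    have h1 := congrArg (eval x) (key l)
    rw [map_zero, map_sum] at h1
    simp only [map_sum, map_mul, eval_C] at h1
    rw [← h1, hp]
    exact rearr (fun a b => T l a b) (fun i => eval x (w i)) v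
  have := Fintype.linearIndependent_iff.1 hv (fun i => eval x (w i)) (by rw [← hp, hp0]) j0
  exact hx this

theorem t : S_NET := net

end Pool.Agent.X44.NC.Net
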